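import Mathlib

/-!
Rotation invariant length metrics on a ball: the functions given by the angular momentum.
-/

open MeasureTheory Set Metric Filter Topology InnerProductGeometry
open scoped RealInnerProductSpace

noncomputable section

namespace Pool.Agent.Lib.MP_8115c2_gt

variable {X V : Type} [MetricSpace X] [NormedAddCommGroup V] [InnerProductSpace ℝ V]

lemma two_point {u v u' v' : V} (hu : ‖u‖ = ‖u'‖) (hv : ‖v‖ = ‖v'‖) (h : ⟪u, v⟫ = ⟪u', v'⟫) :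
    ∃ g : V ≃ₗᵢ[ℝ] V, g u = u' ∧ g v = v' := by
  let g₁ := (ℝ ∙ (u - u'))ᗮ.reflection
  have h1 : g₁ u = u' := Submodule.reflection_sub hu
  refine ⟨g₁.trans (ℝ ∙ (g₁ v - v'))ᗮ.reflection, ?_,
    Submodule.reflection_sub ((g₁.norm_map v).trans hv)⟩
  rw [LinearIsometryEquiv.trans_apply, h1]
  refine Submodule.reflection_mem_subspace_eq_self
    (Submodule.mem_orthogonal_singleton_iff_inner_left.2 ?_)
  rw [inner_sub_right, ← h, ← h1, g₁.inner_map_map, sub_self]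

variable (X V) in
/-- A rotation invariant metric on the unit ball. -/
structure Data where
  ι : X → V
  pt : V → X
  cι : Continuous ι
  cpt : Continuous pt
  le : ∀ x, ‖ι x‖ ≤ 1
  pt_ι : ∀ x, pt (ι x) = x
  ι_pt : ∀ v, ‖v‖ ≤ 1 → ι (pt v) = v
  cross : ∀ f : X → ℝ, Continuous f → ∀ x y c, f x ≤ c → c ≤ f y →
    ∃ z, f z = c ∧ dist x z + dist z y ≤ dist x y
  bd : ∀ x y, ‖ι x‖ = 1 → ‖ι y‖ = 1 → ‖ι x - ι y‖ ≤ dist x y
  inv : ∀ (g : V ≃ₗᵢ[ℝ] V) x y x' y', ι x' = g (ι x) → ι y' = g (ι y) → dist x' y' = dist x y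
  e0 : V
  e1 : V
  n0 : ‖e0‖ = 1
  n1 : ‖e1‖ = 1
  o01 : ⟪e0, e1⟫ = 0

namespace Data

variable (d : Data X V)

/-- Polar coordinates in the fixed plane. -/
def P (r φ : ℝ) : V := (r * Real.cos φ) • d.e0 + (r * Real.sin φ) • d.e1

lemma inner_P (r α r' β : ℝ) : ⟪d.P r α, d.P r' β⟫ = r * r' * Real.cos (β - α) := by
  simp only [P, inner_add_left, inner_add_right, real_inner_smul_left, real_inner_smul_right,
    real_inner_self_eq_norm_sq, d.n0, d.n1, d.o01, real_inner_comm d.e0 d.e1, Real.cos_sub]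
  ring

lemma norm_P {r : ℝ} (hr : 0 ≤ r) (α : ℝ) : ‖d.P r α‖ = r := by
  rw [← sq_eq_sq₀ (norm_nonneg _) hr, ← real_inner_self_eq_norm_sq, inner_P, sub_self, Real.cos_zero]
  ring

lemma ι_P {r : ℝ} (hr : r ∈ Icc (0 : ℝ) 1) (α : ℝ) : d.ι (d.pt (d.P r α)) = d.P r α :=
  d.ι_pt _ ((d.norm_P hr.1 α).trans_le hr.2)

/-- The distance in polar coordinates. -/
def D (r r' α : ℝ) : ℝ := dist (d.pt (d.P r 0)) (d.pt (d.P r' α))

lemma cont_D {Y : Type} [TopologicalSpace Y] {a b c : Y → ℝ} (ha : Continuous a) (hb : Continuous b)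
    (hc : Continuous c) : Continuous fun y => d.D (a y) (b y) (c y) := by
  have := d.cpt
  unfold D P
  fun_prop

lemma dist_eq {x y : X} {r r' α : ℝ} (hx : ‖d.ι x‖ = r) (hy : ‖d.ι y‖ = r')
    (h : ⟪d.ι x, d.ι y⟫ = r * r' * Real.cos α) : dist x y = d.D r r' α := by
  have h1 : r ∈ Icc (0 : ℝ) 1 := hx ▸ ⟨norm_nonneg _, d.le x⟩
  have h2 : r' ∈ Icc (0 : ℝ) 1 := hy ▸ ⟨norm_nonneg _, d.le y⟩
  obtain ⟨g, g1, g2⟩ := two_point (hx.trans (d.norm_P h1.1 0).symm) (hy.trans (d.norm_P h2.1 α).symm)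
    (by rw [h, inner_P, sub_zero])
  exact (d.inv g x y _ _ ((d.ι_P h1 0).trans g1.symm) ((d.ι_P h2 α).trans g2.symm)).symm

lemma dist_angle (x y : X) : dist x y = d.D ‖d.ι x‖ ‖d.ι y‖ (angle (d.ι x) (d.ι y)) :=
  d.dist_eq rfl rfl (by rw [← cos_angle_mul_norm_mul_norm, mul_comm])

variable {r r' : ℝ}

lemma dist_P (hr : r ∈ Icc (0 : ℝ) 1) (hr' : r' ∈ Icc (0 : ℝ) 1) {α β γ : ℝ}
    (h : r * Real.cos (β - α) = r * Real.cos γ) :
    dist (d.pt (d.P r α)) (d.pt (d.P r' β)) = d.D r r' γ :=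
  d.dist_eq (by rw [d.ι_P hr, d.norm_P hr.1]) (by rw [d.ι_P hr', d.norm_P hr'.1])
    (by rw [d.ι_P hr, d.ι_P hr', inner_P, mul_right_comm, h, mul_right_comm])

lemma one_mem : (1 : ℝ) ∈ Icc (0 : ℝ) 1 := ⟨zero_le_one, le_rfl⟩

lemma D_comm (hr : r ∈ Icc (0 : ℝ) 1) (hr' : r' ∈ Icc (0 : ℝ) 1) (α : ℝ) :
    d.D r r' α = d.D r' r α := by
  rw [D, dist_comm, d.dist_P hr' hr (γ := α) (by rw [zero_sub, Real.cos_neg])]

lemma D_tri (hr' : r' ∈ Icc (0 : ℝ) 1) (α φ : ℝ) :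
    d.D r 1 (α + φ) ≤ d.D r r' α + d.D r' 1 φ := by
  rw [← d.dist_P hr' one_mem (α := α) (β := α + φ) (by rw [add_sub_cancel_left])]
  exact dist_triangle _ _ _

lemma sin_le (hr : r ∈ Icc (0 : ℝ) 1) (φ : ℝ) : Real.sin φ ≤ d.D r 1 φ := by
  have h1 := d.bd (d.pt (d.P 1 φ)) (d.pt (d.P 1 (-φ))) (by rw [d.ι_P one_mem, d.norm_P zero_le_one])
    (by rw [d.ι_P one_mem, d.norm_P zero_le_one])
  have h2 := dist_triangle_left (d.pt (d.P 1 φ)) (d.pt (d.P 1 (-φ))) (d.pt (d.P r 0))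
  rw [d.dist_P hr one_mem (β := -φ) (γ := φ) (by rw [sub_zero, Real.cos_neg])] at h2
  have h3 : d.P 1 φ - d.P 1 (-φ) = (2 * Real.sin φ) • d.e1 := by
    simp only [P, Real.cos_neg, Real.sin_neg]
    module
  rw [d.ι_P one_mem, d.ι_P one_mem, h3, norm_smul, d.n1, mul_one, Real.norm_eq_abs] at h1
  have h4 : dist (d.pt (d.P r 0)) (d.pt (d.P 1 φ)) = d.D r 1 φ := rfl
  linarith [le_abs_self (2 * Real.sin φ)]

lemma radial (hr : r ∈ Icc (0 : ℝ) 1) (hr' : r' ∈ Icc (0 : ℝ) 1) (α : ℝ) :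
    d.D r r' 0 ≤ d.D r r' α := by
  have := d.cι
  obtain ⟨z, hz, h⟩ := d.cross (fun x => ⟪d.ι x, d.P r' α⟫ - ⟪d.ι x, d.P r' 0⟫) (by fun_prop)
    (d.pt (d.P r 0)) (d.pt (d.P r' α)) 0
    (by
      simp only [d.ι_P hr, inner_P, sub_zero, Real.cos_zero]
      nlinarith [Real.cos_le_one α, mul_nonneg hr.1 hr'.1])
    (by
      simp only [d.ι_P hr', inner_P, sub_self, Real.cos_zero]
      nlinarith [Real.cos_le_one (0 - α), mul_nonneg hr'.1 hr'.1])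
  obtain ⟨g, g1, g2⟩ := two_point rfl ((d.norm_P hr'.1 α).trans (d.norm_P hr'.1 0).symm)
    (sub_eq_zero.1 hz)
  have h1 := d.inv g z (d.pt (d.P r' α)) z (d.pt (d.P r' 0)) g1.symm
    (by rw [d.ι_P hr', d.ι_P hr', g2])
  rw [← h1] at h
  exact (dist_triangle _ z _).trans h

lemma radial' (x y : X) : d.D ‖d.ι x‖ ‖d.ι y‖ 0 ≤ dist x y := by
  rw [d.dist_angle]
  exact d.radial ⟨norm_nonneg _, d.le x⟩ ⟨norm_nonneg _, d.le y⟩ _

/-- The distance to the boundary. -/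
def s (r : ℝ) : ℝ := d.D r 1 0

lemma cont_s : Continuous d.s := d.cont_D continuous_id continuous_const continuous_const

lemma s_one : d.s 1 = 0 := dist_self _

lemma D_le (hr : 0 ≤ r) (h : r ≤ r') (hr' : r' ≤ 1) : d.D r r' 0 + d.s r' ≤ d.s r := by
  have h0 : r ∈ Icc (0 : ℝ) 1 := ⟨hr, h.trans hr'⟩
  obtain ⟨z, hz, h1⟩ := d.cross (fun x => ‖d.ι x‖) d.cι.norm (d.pt (d.P r 0)) (d.pt (d.P 1 0)) r'
    (by simp only [d.ι_P h0, d.norm_P hr, h]) (by simp only [d.ι_P one_mem, d.norm_P zero_le_one, hr'])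
  have h2 := d.radial' (d.pt (d.P r 0)) z
  have h3 := d.radial' z (d.pt (d.P 1 0))
  simp only [d.ι_P h0, d.norm_P hr, d.ι_P one_mem, d.norm_P zero_le_one, hz] at h2 h3
  exact (add_le_add h2 h3).trans h1

lemma s_lt (hr : 0 ≤ r) (h : r < r') (hr' : r' ≤ 1) : d.s r' < d.s r := by
  refine lt_of_lt_of_le (lt_add_of_pos_left _ (dist_pos.2 fun e => h.ne ?_)) (d.D_le hr h.le hr')
  have := congrArg (fun x => ‖d.ι x‖) e
  simpa only [d.ι_P ⟨hr, h.le.trans hr'⟩, d.ι_P ⟨hr.trans h.le, hr'⟩, d.norm_P hr,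
    d.norm_P (hr.trans h.le)] using this

/-- The depth of a point. -/
def S (x : X) : ℝ := d.s ‖d.ι x‖

lemma cont_S : Continuous d.S := d.cont_s.comp d.cι.norm

lemma S_le (x y : X) : |d.S x - d.S y| ≤ dist x y := by
  have key : ∀ x y, d.S x - d.S y ≤ dist x y := fun x y => by
    have h1 := d.D_tri (r := ‖d.ι x‖) ⟨norm_nonneg _, d.le y⟩ 0 0
    rw [add_zero] at h1
    linarith [d.radial' x y, show d.S x = d.D ‖d.ι x‖ 1 0 from rfl,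
      show d.S y = d.D ‖d.ι y‖ 1 0 from rfl]
  exact abs_sub_le_iff.2 ⟨key x y, dist_comm x y ▸ key y x⟩

lemma exists_r {τ : ℝ} (h0 : 0 ≤ τ) (h : τ < d.s 0) : ∃ r, 0 < r ∧ r ≤ 1 ∧ d.s r = τ := by
  obtain ⟨r, hr, e⟩ := intermediate_value_Icc' zero_le_one d.cont_s.continuousOn
    (show τ ∈ Icc (d.s 1) (d.s 0) from ⟨d.s_one ▸ h0, h.le⟩)
  exact ⟨r, hr.1.lt_of_ne fun e' => h.ne (by rw [← e, ← e']), hr.2, e⟩

theorem momentum_aux {p φ₀ ε : ℝ} (hp : 0 ≤ p) (hφ : 0 ≤ φ₀) (hε : 0 < ε)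
    (hA : ε < Real.sin φ₀ - p * φ₀) : ∃ ρ ∈ Ioc (0 : ℝ) 1, ∃ η > 0, ∃ a : ℝ → ℝ,
      Real.sin φ₀ - p * φ₀ - ε ≤ a ρ - a 1 ∧ ∀ r ∈ Icc ρ 1, ∀ r' ∈ Icc ρ 1, ∀ α ∈ Icc 0 η,
        p * α + |a r - a r'| ≤ d.D r r' α := by
  let a : ℝ → ℝ := fun r => sInf ((fun φ => d.D r 1 φ - p * φ) '' Icc 0 φ₀)
  have hc : Continuous fun z : ℝ × ℝ => d.D z.1 1 z.2 - p * z.2 :=
    (d.cont_D continuous_fst continuous_const continuous_snd).sub (by fun_prop)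
  have ha : Continuous a := isCompact_Icc.continuous_sInf hc
  have hmin : ∀ r, ∃ φ ∈ Icc 0 φ₀, a r = d.D r 1 φ - p * φ ∧
      ∀ ψ ∈ Icc 0 φ₀, a r ≤ d.D r 1 ψ - p * ψ := fun r => by
    obtain ⟨φ, h1, h2, h3⟩ := isCompact_Icc.exists_sInf_image_eq_and_le (nonempty_Icc.2 hφ)
      (hc.comp (Continuous.prodMk_right r)).continuousOn
    exact ⟨φ, h1, h2, fun ψ hψ => h2.trans_le (h3 ψ hψ)⟩
  have hle : ∀ r, ∀ ψ ∈ Icc 0 φ₀, a r ≤ d.D r 1 ψ - p * ψ := fun r => (hmin r).choose_spec.2.2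
  have hZ : IsCompact (Icc (0 : ℝ) 1 ∩ {r | a r = d.D r 1 φ₀ - p * φ₀}) :=
    isCompact_Icc.inter_right (isClosed_eq ha (hc.comp (Continuous.prodMk_left φ₀)))
  obtain ⟨t, ⟨ht, ht'⟩, hmax⟩ := hZ.exists_isGreatest ⟨0, ⟨le_rfl, zero_le_one⟩, by
    obtain ⟨φ, h1, h2, -⟩ := hmin 0
    refine le_antisymm (hle 0 φ₀ ⟨hφ, le_rfl⟩) ?_
    rw [h2, show d.D 0 1 φ = d.D 0 1 φ₀ from
      d.dist_P ⟨le_rfl, zero_le_one⟩ one_mem (by rw [zero_mul, zero_mul])]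
    nlinarith [h1.2]⟩
  have h1 : Real.sin φ₀ - p * φ₀ ≤ a t := by
    rw [show a t = _ from ht']
    linarith [d.sin_le ht φ₀]
  have h2 : a 1 ≤ 0 := by simpa [D] using hle 1 0 ⟨le_rfl, hφ⟩
  have h3 : t < 1 := ht.2.lt_of_ne fun e => by rw [e] at h1; linarith
  obtain ⟨ρ, hρ, hρ'⟩ : ∃ ρ, a t - ε < a ρ ∧ ρ ∈ Ioo t 1 :=
    (((ha.tendsto t).eventually (lt_mem_nhds (sub_lt_self _ hε))).filter_mono
      nhdsWithin_le_nhds |>.and (Ioo_mem_nhdsGT h3)).exists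
  have h4 : ∀ᶠ φ in 𝓝 φ₀, ∀ r ∈ Icc ρ 1, a r < d.D r 1 φ - p * φ := by
    refine isCompact_Icc.eventually_forall_of_forall_eventually fun r hr => ?_
    refine ContinuousAt.eventually_lt (f := fun z : ℝ × ℝ => a z.2)
      (g := fun z : ℝ × ℝ => d.D z.2 1 z.1 - p * z.1) (ha.comp continuous_snd).continuousAt
      (hc.comp continuous_swap).continuousAt ((hle r φ₀ ⟨hφ, le_rfl⟩).lt_of_ne fun e => ?_)
    exact (hρ'.1.trans_le hr.1).not_ge (hmax ⟨⟨ht.1.trans (hρ'.1.le.trans hr.1), hr.2⟩, e⟩)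
  obtain ⟨η, hη, h5⟩ := Metric.eventually_nhds_iff.1 h4
  have hI : ∀ r ∈ Icc ρ 1, r ∈ Icc (0 : ℝ) 1 := fun r hr =>
    ⟨ht.1.trans (hρ'.1.le.trans hr.1), hr.2⟩
  have key : ∀ r ∈ Icc ρ 1, ∀ r' ∈ Icc ρ 1, ∀ α ∈ Icc 0 η, a r - a r' ≤ d.D r r' α - p * α := by
    intro r _ r' hr' α hα
    obtain ⟨φ, h6, h7, -⟩ := hmin r'
    have h8 : η ≤ φ₀ - φ := not_lt.1 fun h => (h5 (y := φ) (by
      rw [Real.dist_eq, abs_sub_comm, abs_of_nonneg (sub_nonneg.2 h6.2)]; exact h) r' hr').ne h7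
    have h9 := hle r (α + φ) ⟨add_nonneg hα.1 h6.1, by linarith [hα.2]⟩
    linarith [d.D_tri (r := r) (hI r' hr') α φ]
  refine ⟨ρ, ⟨ht.1.trans_lt hρ'.1, hρ'.2.le⟩, η, hη, a, by linarith, fun r hr r' hr' α hα => ?_⟩
  have h6 := key r hr r' hr' α hα
  have h7 := key r' hr' r hr α hα
  rw [← d.D_comm (hI r hr) (hI r' hr')] at h7
  rw [← le_sub_iff_add_le', abs_sub_le_iff]
  exact ⟨h6, h7⟩

/-- The function attached to the angular momentum `p`. -/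
theorem momentum {p φ₀ ε : ℝ} (hp : 0 ≤ p) (hφ : 0 ≤ φ₀) (hε : 0 < ε) :
    ∃ σ < d.s 0, ∃ η > 0, ∃ b : ℝ → ℝ, LipschitzWith 1 b ∧
      Real.sin φ₀ - p * φ₀ - ε ≤ ∫ τ in Icc 0 σ, |deriv b τ| ∧
      ∀ x y, d.S x ≤ σ → d.S y ≤ σ → angle (d.ι x) (d.ι y) ≤ η →
        p * angle (d.ι x) (d.ι y) + |b (d.S x) - b (d.S y)| ≤ dist x y := by
  rcases le_or_gt (Real.sin φ₀ - p * φ₀) ε with hA | hA
  · refine ⟨-1, lt_of_lt_of_le (by norm_num) dist_nonneg, 1, one_pos, fun _ => 0,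
      (LipschitzWith.const _).weaken zero_le_one, by simpa using hA, fun x _ hx => ?_⟩
    linarith [show 0 ≤ d.S x from dist_nonneg]
  obtain ⟨ρ, hρ, η, hη, a, h1, h2⟩ := d.momentum_aux hp hφ hε hA
  have h3 : ∀ r ∈ Icc ρ 1, ∀ r' ∈ Icc ρ 1, |a r - a r'| ≤ |d.s r - d.s r'| := by
    have key : ∀ r ∈ Icc ρ 1, ∀ r' ∈ Icc ρ 1, r ≤ r' → |a r - a r'| ≤ |d.s r - d.s r'| :=
      fun r hr r' hr' h => by
        have h4 := h2 r hr r' hr' 0 ⟨le_rfl, hη.le⟩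
        linarith [d.D_le (hρ.1.le.trans hr.1) h hr'.2, le_abs_self (d.s r - d.s r')]
    intro r hr r' hr'
    rcases le_total r r' with h | h
    · exact key r hr r' hr' h
    · rw [abs_sub_comm, abs_sub_comm (d.s r)]
      exact key r' hr' r hr h
  obtain ⟨b, hb, hb'⟩ := LipschitzOnWith.extend_real (K := 1) (s := d.s '' Icc ρ 1)
    (f := a ∘ Function.invFunOn d.s (Icc ρ 1)) (LipschitzOnWith.of_dist_le_mul fun u hu v hv => by
      have := h3 _ (Function.invFunOn_mem hu) _ (Function.invFunOn_mem hv)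
      rwa [Function.invFunOn_eq hu, Function.invFunOn_eq hv, ← Real.dist_eq, ← Real.dist_eq,
        ← one_mul (dist u v)] at this)
  have h4 : ∀ r ∈ Icc ρ 1, b (d.s r) = a r := fun r hr => by
    have hu : d.s r ∈ d.s '' Icc ρ 1 := ⟨r, hr, rfl⟩
    have := h3 _ (Function.invFunOn_mem hu) r hr
    rw [Function.invFunOn_eq hu, sub_self, abs_zero, abs_nonpos_iff, sub_eq_zero] at this
    exact (hb' hu).symm.trans this
  have h5 : ∀ x, d.S x ≤ d.s ρ → ‖d.ι x‖ ∈ Icc ρ 1 := fun x hx =>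
    ⟨not_lt.1 fun h => (d.s_lt (norm_nonneg _) h hρ.2).not_ge hx, d.le x⟩
  have h0 : 0 ≤ d.s ρ := dist_nonneg
  refine ⟨d.s ρ, d.s_lt le_rfl hρ.1 hρ.2, η, hη, b, hb, h1.trans ?_, fun x y hx hy h => ?_⟩
  · rw [← h4 ρ ⟨le_rfl, hρ.2⟩, ← h4 1 ⟨hρ.2, le_rfl⟩, s_one,
      ← hb.lipschitzOnWith.absolutelyContinuousOnInterval.integral_deriv_eq_sub,
      integral_Icc_eq_integral_Ioc, ← intervalIntegral.integral_of_le h0]
    exact (le_abs_self _).trans (intervalIntegral.abs_integral_le_integral_abs h0)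
  · rw [S, S, h4 _ (h5 x hx), h4 _ (h5 y hy), d.dist_angle]
    exact h2 _ (h5 x hx) _ (h5 y hy) _ ⟨angle_nonneg _ _, h⟩

end Data

end Pool.Agent.Lib.MP_8115c2_gt
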