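import Pool.Agent.Lib.MP_8115c2_gt.Iso
import Pool.Agent.Lib.MP_8115c2_gt.Geo

/-!
Lower bounds for the Hausdorff measure of the shells.
-/

open MeasureTheory Set Pointwise Metric Filter Topology InnerProductGeometry
open scoped RealInnerProductSpace ENNReal

noncomputable section

namespace Pool.Agent.Lib.MP_8115c2_gt

open Pool.Agent.Shared.EuclidSlice

lemma mass {X Z : Type} [MetricSpace X] [MeasurableSpace X] [BorelSpace X] [MeasurableSpace Z]
    (μ : Measure Z) (Ψ : X → Z) (W : Set X) {n : ℕ} (hn : 0 < n) {γ C δ : ℝ≥0∞} (hC : C ≠ 0)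
    (hC' : C ≠ ⊤) (hδ : 0 < δ) (h : ∀ A ⊆ W, ediam A ≤ δ → γ * μ (Ψ '' A) ≤ C * ediam A ^ n) :
    γ * μ (Ψ '' W) ≤ C * μH[n] W := by
  rw [Measure.hausdorffMeasure_apply]
  refine le_trans ?_ (mul_le_mul_right (le_iSup₂_of_le δ hδ le_rfl) C)
  simp only [ENNReal.mul_iInf_of_ne hC hC', le_iInf_iff]
  intro t ht hd
  have h1 : Ψ '' W ⊆ ⋃ i, Ψ '' (t i ∩ W) := by
    rintro _ ⟨x, hx, rfl⟩
    obtain ⟨i, hi⟩ := mem_iUnion.1 (ht hx)
    exact mem_iUnion.2 ⟨i, x, ⟨hi, hx⟩, rfl⟩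
  refine (mul_le_mul_right ((measure_mono h1).trans (measure_iUnion_le _)) γ).trans ?_
  rw [← ENNReal.tsum_mul_left, ← ENNReal.tsum_mul_left]
  refine ENNReal.tsum_le_tsum fun i => (h _ inter_subset_right
    ((ediam_mono inter_subset_left).trans (hd i))).trans (mul_le_mul_right ?_ C)
  rcases (t i).eq_empty_or_nonempty with e | e
  · simp [e, hn.ne']
  · rw [iSup_pos e, ENNReal.rpow_natCast]
    exact pow_le_pow_left' (ediam_mono inter_subset_left) n

lemma layer {ι : Type} [Countable ι] [Nonempty ι] (ν : Measure ℝ) {f : ℝ → ℝ≥0∞}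
    (hf : Measurable f) {F : ι → Set ℝ} (hF : ∀ i, MeasurableSet (F i)) {γ : ι → ℝ≥0∞}
    (h : ∀ i G, MeasurableSet G → G ⊆ F i → γ i * volume G ≤ ν G)
    (hae : ∀ᵐ τ, ∃ i, τ ∈ F i ∧ f τ ≤ γ i) : ∫⁻ τ, f τ ≤ ν univ := by
  obtain ⟨g, hg⟩ := exists_surjective_nat ι
  let F' : ℕ → Set ℝ := fun n => F (g n) ∩ {τ | f τ ≤ γ (g n)}
  have hm : ∀ n, MeasurableSet (disjointed F' n) :=
    MeasurableSet.disjointed fun n => (hF _).inter (measurableSet_le hf measurable_const)
  have h1 : (⋃ n, disjointed F' n) =ᵐ[volume] univ := by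
    rw [iUnion_disjointed, ae_eq_univ]
    refine measure_mono_null (fun τ hτ => ?_) (ae_iff.1 hae)
    rintro ⟨i, hi⟩
    obtain ⟨n, rfl⟩ := hg i
    exact hτ (mem_iUnion.2 ⟨n, hi⟩)
  rw [← setLIntegral_univ, ← setLIntegral_congr h1, lintegral_iUnion hm (disjoint_disjointed _)]
  refine le_trans (ENNReal.tsum_le_tsum fun n => ?_)
    ((measure_iUnion (disjoint_disjointed _) hm).ge.trans (measure_mono (subset_univ _)))
  refine le_trans ?_ (h (g n) _ (hm n) fun τ hτ => (disjointed_subset F' n hτ).1)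
  rw [← setLIntegral_const]
  exact setLIntegral_mono' (hm n) fun τ hτ => (disjointed_subset F' n hτ).2

variable {m : ℕ}

lemma inner_cons (w w' : E m) : ⟪cons 1 w, cons 1 w'⟫ = 1 + ⟪w, w'⟫ := by
  simp [PiLp.inner_apply, Fin.sum_univ_succ]

lemma cap {η l : ℝ} (hη : 0 < η) (l0 : 0 < l) (l1 : l < 1) : ∃ θ > 0, ∀ w w' : E m, ‖w‖ < θ →
    ‖w'‖ < θ → angle (cons 1 w) (cons 1 w') ≤ η ∧ l * ‖w - w'‖ ≤ angle (cons 1 w) (cons 1 w') := by
  have h0 : cons 1 (0 : E m) ≠ 0 := fun e => by simpa using congrArg (· 0) e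
  have hc : Continuous fun w : E m => cons 1 w := (isometry_cons 1).continuous
  have h1 : ContinuousAt (fun z : E m × E m => angle (cons 1 z.1) (cons 1 z.2)) (0, 0) :=
    (continuousAt_angle (x := (cons 1 (0 : E m), cons 1 (0 : E m))) h0 h0).comp
      (f := fun z : E m × E m => (cons 1 z.1, cons 1 z.2)) (x := (0, 0)) (by fun_prop)
  have h2 : ContinuousAt (fun z : E m × E m => l * (‖cons 1 z.1‖ * ‖cons 1 z.2‖)) (0, 0) := by
    fun_prop
  have h3 : ‖cons 1 (0 : E m)‖ = 1 := by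
    rw [← sq_eq_sq₀ (norm_nonneg _) zero_le_one, norm_cons_sq]
    simp
  obtain ⟨θ, hθ, h⟩ := Metric.eventually_nhds_iff.1
    ((h1.eventually (gt_mem_nhds (by simpa [angle_self h0] using hη))).and
      (h2.eventually (gt_mem_nhds (by simpa [h3] using l1))))
  refine ⟨θ, hθ, fun w w' hw hw' => ?_⟩
  obtain ⟨h4, h5⟩ := h (y := (w, w')) (by simp [Prod.dist_eq, hw, hw'])
  refine ⟨h4.le, ?_⟩
  have h6 : ‖w - w'‖ ≤ Real.sin (angle (cons 1 w) (cons 1 w')) * (‖cons 1 w‖ * ‖cons 1 w'‖) := by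
    rw [sin_angle_mul_norm_mul_norm, inner_cons, inner_cons, inner_cons]
    refine Real.le_sqrt_of_sq_le ?_
    have := real_inner_mul_inner_self_le w w'
    rw [norm_sub_sq_real, ← real_inner_self_eq_norm_sq, ← real_inner_self_eq_norm_sq]
    nlinarith
  have h7 := Real.sin_le (angle_nonneg (cons 1 w) (cons 1 w'))
  have h8 := Real.sin_nonneg_of_nonneg_of_le_pi (angle_nonneg (cons 1 w) (cons 1 w'))
    (angle_le_pi _ _)
  nlinarith

/-- The central projection. -/
def cp (v : E (m + 1)) : E m := (v 0)⁻¹ • tail v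

lemma measurable_cp : Measurable (cp (m := m)) := by
  have := continuous_tail (n := m)
  unfold cp
  fun_prop

lemma smul_cons (a t : ℝ) (w : E m) : a • cons t w = cons (a * t) (a • w) := by
  simpa using (cons_combo a 0 t 0 w 0).symm

lemma cons_cp {v : E (m + 1)} (h : v 0 ≠ 0) : cons 1 (cp v) = (v 0)⁻¹ • v := by
  conv_rhs => rw [← cons_tail v]
  rw [smul_cons, cons_zero, inv_mul_cancel₀ h, cp]

/-- The cone over a set. -/
def cone (U : Set (E m)) : Set (E (m + 1)) := {v | 0 < v 0 ∧ cp v ∈ U}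

lemma measurable_cone {U : Set (E m)} (hU : MeasurableSet U) : MeasurableSet (cone U) :=
  (measurableSet_lt (g := fun v : E (m + 1) => v 0) measurable_const (by fun_prop)).inter
    (measurable_cp hU)

lemma vol_cone {U : Set (E m)} (hU : MeasurableSet U) :
    (m + 1 : ℕ) * volume (closedBall 0 1 ∩ cone U) ≤ volume U := by
  have h1 : volume (closedBall 0 1 ∩ cone U) ≤
      ∫⁻ t in Ioc (0 : ℝ) 1, ENNReal.ofReal (t ^ m) * volume U := by
    rw [volume_eq_lintegral_slice (measurableSet_closedBall.inter (measurable_cone hU)),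
      ← lintegral_indicator measurableSet_Ioc]
    refine lintegral_mono fun t => ?_
    by_cases ht : t ∈ Ioc (0 : ℝ) 1
    · have := Measure.addHaar_smul volume t U
      rw [finrank_euclideanSpace_fin, abs_of_pos (pow_pos ht.1 m)] at this
      rw [indicator_of_mem ht]
      refine (measure_mono fun x hx => ?_).trans this.le
      exact (mem_smul_set_iff_inv_smul_mem₀ ht.1.ne' _ _).2 (by simpa [cp] using hx.2.2)
    · rw [eq_empty_of_forall_notMem (s := slice _ t) fun x hx => ht ⟨by simpa using hx.2.1, ?_⟩]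
      · simp
      · have h1 := mem_closedBall_zero_iff.1 hx.1
        nlinarith [norm_cons_sq t x, norm_nonneg (cons t x), sq_nonneg ‖x‖]
  refine (mul_le_mul_right h1 _).trans_eq ?_
  rw [lintegral_mul_const _ (by fun_prop), ← ofReal_integral_eq_lintegral_ofReal
    (continuous_pow m).integrableOn_Ioc ((ae_restrict_mem measurableSet_Ioc).mono fun t ht =>
      pow_nonneg ht.1.le m), ← intervalIntegral.integral_of_le zero_le_one, integral_pow,
    ← mul_assoc, ← ENNReal.ofReal_natCast, ← ENNReal.ofReal_mul (by positivity)]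
  rw [one_pow, zero_pow m.succ_ne_zero, sub_zero, Nat.cast_succ, mul_one_div_cancel (by positivity),
    ENNReal.ofReal_one, one_mul]

lemma cones {θ : ℝ} (hθ : 0 < θ) : ∃ (g : ℕ → E (m + 1) ≃ₗᵢ[ℝ] E (m + 1)) (U : ℕ → Set (E m)),
    (∀ i, MeasurableSet (U i)) ∧ (∀ i, U i ⊆ ball 0 θ) ∧
    Pairwise (Function.onFun Disjoint fun i => g i ⁻¹' cone (U i)) ∧
    (m + 1 : ℕ) * ENNReal.ofReal (om (m + 1)) ≤ ∑' i, volume (U i) := by
  have hs : ∀ t : ℝ, 0 < t → ∀ (U : Set (E m)) v, t • v ∈ cone U ↔ v ∈ cone U := fun t ht U v => by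
    have e : cp (t • v) = cp v := by
      ext i
      simp only [cp, PiLp.smul_apply, tail_apply, smul_eq_mul, mul_inv]
      field_simp
    simp only [cone, mem_ofPred_eq, e, PiLp.smul_apply, smul_eq_mul, mul_pos_iff_of_pos_left ht]
  have ho : IsOpen (cone (ball (0 : E m) θ)) := by
    have hc := continuous_tail (n := m)
    refine ContinuousOn.isOpen_inter_preimage (f := cp) (s := {v : E (m + 1) | 0 < v 0}) ?_
      (isOpen_lt (g := fun v : E (m + 1) => v 0) continuous_const (by fun_prop)) isOpen_ball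
    exact (ContinuousOn.inv₀ (f := fun v : E (m + 1) => v 0) (by fun_prop)
      fun v hv => ne_of_gt hv).smul hc.continuousOn
  obtain ⟨T, hT, hT'⟩ := TopologicalSpace.isOpen_iUnion_countable
    (fun g : E (m + 1) ≃ₗᵢ[ℝ] E (m + 1) => g ⁻¹' cone (ball 0 θ)) fun g => ho.preimage g.continuous
  obtain ⟨g, hg⟩ := (hT.insert (.refl _ _)).exists_eq_range (insert_nonempty _ _)
  let V := disjointed fun i => g i ⁻¹' cone (ball 0 θ)
  have hV : ∀ i, MeasurableSet (V i) :=
    MeasurableSet.disjointed fun i => (ho.preimage (g i).continuous).measurableSet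
  have hV' : ∀ i, ∀ t : ℝ, 0 < t → ∀ v, t • v ∈ V i ↔ v ∈ V i := fun i t ht v => by
    simp only [V, disjointed_eq_inter_compl, mem_inter_iff, mem_iInter, mem_compl_iff, mem_preimage,
      map_smul, hs t ht]
  let U : ℕ → Set (E m) := fun i => {w | (g i).symm (cons 1 w) ∈ V i}
  have hU : ∀ i, MeasurableSet (U i) := fun i =>
    ((g i).symm.continuous.comp (isometry_cons 1).continuous).measurable (hV i)
  have e : ∀ i, g i ⁻¹' cone (U i) = V i := fun i => by
    have key : ∀ v, 0 < g i v 0 → (cp (g i v) ∈ U i ↔ v ∈ V i) := fun v hv => by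
      simp only [U, mem_ofPred_eq, cons_cp hv.ne', map_smul, LinearIsometryEquiv.symm_apply_apply,
        hV' i _ (inv_pos.2 hv)]
    ext v
    exact ⟨fun h => (key v h.1).1 h.2, fun h => ⟨(disjointed_subset _ i h).1,
      (key v (disjointed_subset _ i h).1).2 h⟩⟩
  refine ⟨g, U, hU, fun i w hw => ?_, by simpa only [e] using disjoint_disjointed _, ?_⟩
  · have : (g i).symm (cons 1 w) ∈ g i ⁻¹' cone (ball 0 θ) :=
      disjointed_subset (fun i => g i ⁻¹' cone (ball 0 θ)) i hw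
    simpa [cp] using this.2
  have h1 : closedBall (0 : E (m + 1)) 1 ⊆ {0} ∪ ⋃ i, g i ⁻¹' (closedBall 0 1 ∩ cone (U i)) := by
    intro v hv
    by_cases h0 : v = 0
    · exact Or.inl h0
    have h2 : v ∈ ⋃ i, V i := by
      have h3 : ‖v‖ = ‖cons ‖v‖ (0 : E m)‖ := by
        rw [← sq_eq_sq₀ (norm_nonneg _) (norm_nonneg _), norm_cons_sq]
        simp
      have h4 : v ∈ ⋃ g : E (m + 1) ≃ₗᵢ[ℝ] E (m + 1), g ⁻¹' cone (ball 0 θ) :=
        mem_iUnion.2 ⟨_, by
          rw [mem_preimage, Submodule.reflection_sub h3]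
          simp [cone, cp, h0, hθ]⟩
      rw [← hT'] at h4
      obtain ⟨a, ha, h4⟩ := mem_iUnion₂.1 h4
      obtain ⟨i, rfl⟩ : a ∈ range g := hg ▸ mem_insert_of_mem _ ha
      rw [iUnion_disjointed]
      exact mem_iUnion.2 ⟨i, h4⟩
    obtain ⟨i, hi⟩ := mem_iUnion.1 h2
    exact Or.inr (mem_iUnion.2 ⟨i, by simpa using hv, (e i).ge hi⟩)
  rw [om, ofReal_measureReal measure_closedBall_lt_top.ne]
  refine (mul_le_mul_right ((measure_mono h1).trans (measure_union_le _ _)) _).trans ?_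
  rw [measure_singleton, zero_add]
  refine (mul_le_mul_right (measure_iUnion_le _) _).trans ?_
  rw [← ENNReal.tsum_mul_left]
  refine ENNReal.tsum_le_tsum fun i => ?_
  rw [(g i).measurePreserving.measure_preimage
    (measurableSet_closedBall.inter (measurable_cone (hU i))).nullMeasurableSet]
  exact vol_cone (hU i)

variable {X : Type} [MetricSpace X] [MeasurableSpace X] [BorelSpace X] (d : Data X (E (m + 1)))
  {ι : Type} [Fintype ι] {p c w : ι → ℝ}

theorem shell (hm : 0 < m) (hp : ∀ j, 0 < p j) (hw : ∀ j, 0 ≤ w j)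
    (hS : ∀ S : Finset ι, S.Nonempty → ∃ i ∈ S, ∑ j ∈ S, w j ≤ p i ^ m) {i : ι} (hi : 0 < c i)
    {l η δ : ℝ} (l0 : 0 < l) (l1 : l < 1) (hη : 0 < η) (hδ : 0 < δ) {G : Set ℝ}
    (hG : MeasurableSet G) (hG' : G ⊆ Ico 0 (d.s 0))
    (H : ∀ x y, d.S x ∈ G → d.S y ∈ G → angle (d.ι x) (d.ι y) ≤ η → dist x y ≤ δ → ∀ j, 0 < c j →
      p j * angle (d.ι x) (d.ι y) + c j * |d.S x - d.S y| ≤ dist x y) :
    ENNReal.ofReal (2 * om m * ∑ j, max (c j) 0 * (l ^ m * w j)) *
      ((m + 1 : ℕ) * ENNReal.ofReal (om (m + 1))) * volume G ≤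
      ENNReal.ofReal (om (m + 1) ^ 2 / 2 ^ (m + 1)) * μH[(m + 1 : ℕ)] (d.S ⁻¹' G) := by
  obtain ⟨θ, hθ, hc⟩ := cap (m := m) hη l0 l1
  obtain ⟨g, U, hU, hU', hd, hv⟩ := cones (m := m) hθ
  have ho := om_pos (m + 1)
  let W : ℕ → Set X := fun k => d.S ⁻¹' G ∩ d.ι ⁻¹' (g k ⁻¹' cone (U k))
  have hW : ∀ k, MeasurableSet (W k) := fun k => (d.cont_S.measurable hG).inter
    (d.cι.measurable ((g k).continuous.measurable (measurable_cone (hU k))))
  have h1 : ∑' k, μH[(m + 1 : ℕ)] (W k) ≤ μH[(m + 1 : ℕ)] (d.S ⁻¹' G) :=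
    (measure_iUnion (fun a b h => ((hd h).preimage d.ι).mono inter_subset_right inter_subset_right)
      hW).ge.trans (measure_mono (iUnion_subset fun _ => inter_subset_left))
  refine le_trans ?_ (mul_le_mul_right h1 _)
  refine (mul_le_mul_left (mul_le_mul_right hv _) _).trans ?_
  rw [← ENNReal.tsum_mul_left, ← ENNReal.tsum_mul_left, ← ENNReal.tsum_mul_right]
  refine ENNReal.tsum_le_tsum fun k => le_trans ?_ (mass volume
    (fun x => cons (d.S x) (cp (g k (d.ι x)))) (W k) m.succ_pos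
    (γ := ENNReal.ofReal (2 * om m * ∑ j, max (c j) 0 * (l ^ m * w j)))
    (ENNReal.ofReal_pos.2 (by positivity)).ne'
    ENNReal.ofReal_ne_top (ENNReal.ofReal_pos.2 hδ) fun A hA hA' => ?_)
  · rw [mul_assoc, mul_comm (volume _), ← Measure.prod_prod]
    refine mul_le_mul_right ((measure_mono ?_).trans
      (measurePreserving_cons.measure_preimage_le _)) _
    rintro ⟨τ, u⟩ ⟨h2, h3⟩
    obtain ⟨r, r0, r1, rfl⟩ := d.exists_r (hG' h2).1 (hG' h2).2
    have h4 : 0 < ‖cons 1 u‖ := norm_pos_iff.2 fun e => by simpa using congrArg (· 0) e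
    have h5 : 0 < r / ‖cons 1 u‖ := div_pos r0 h4
    have h6 : ‖(g k).symm ((r / ‖cons 1 u‖) • cons 1 u)‖ = r := by
      rw [LinearIsometryEquiv.norm_map, norm_smul, Real.norm_of_nonneg h5.le,
        div_mul_cancel₀ _ h4.ne']
    have h7 := d.ι_pt _ (h6.trans_le r1)
    have h8 : cp ((r / ‖cons 1 u‖) • cons 1 u) = u := by
      rw [smul_cons, cp, cons_zero, tail_cons, mul_one, inv_smul_smul₀ h5.ne']
    refine ⟨d.pt ((g k).symm ((r / ‖cons 1 u‖) • cons 1 u)), ⟨?_, ?_⟩, ?_⟩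
    · rwa [mem_preimage, Data.S, h7, h6]
    · rw [mem_preimage, mem_preimage, h7, LinearIsometryEquiv.apply_symm_apply]
      exact ⟨by simpa using h5, h8.symm ▸ h3⟩
    · simp only [Data.S, h7, h6, LinearIsometryEquiv.apply_symm_apply, h8]
  · have h2 : ediam A ≠ ⊤ := ne_top_of_le_ne_top ENNReal.ofReal_ne_top hA'
    rw [← ENNReal.ofReal_toReal h2]
    refine iso_dual (p := fun j => l * p j) hm (fun j => mul_pos l0 (hp j))
      (fun j => mul_nonneg (pow_pos l0 m).le (hw j)) (fun S hs => ?_) hi ENNReal.toReal_nonneg ?_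
    · obtain ⟨a, ha, h⟩ := hS S hs
      exact ⟨a, ha, by
        rw [← Finset.mul_sum, mul_pow]
        exact mul_le_mul_of_nonneg_left h (pow_pos l0 m).le⟩
    rintro _ ⟨x, hx, rfl⟩ _ ⟨y, hy, rfl⟩ j hj
    have h3 : dist x y ≤ (ediam A).toReal := dist_le_diam_of_mem' h2 hx hy
    obtain ⟨x1, x2, x3⟩ := hA hx
    obtain ⟨y1, y2, y3⟩ := hA hy
    obtain ⟨h4, h5⟩ := hc _ _ (mem_ball_zero_iff.1 (hU' k x3)) (mem_ball_zero_iff.1 (hU' k y3))
    rw [cons_cp x2.ne', cons_cp y2.ne', angle_smul_left_of_pos _ _ (inv_pos.2 x2),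
      angle_smul_right_of_pos _ _ (inv_pos.2 y2),
      show angle (g k (d.ι x)) (g k (d.ι y)) = _ from (g k).toLinearIsometry.angle_map _ _] at h4 h5
    have h6 := H x y x1 y1 h4 (h3.trans (ENNReal.toReal_le_of_le_ofReal hδ.le hA')) j hj
    simp only [tail_cons, cons_zero]
    nlinarith [hp j]

end Pool.Agent.Lib.MP_8115c2_gt
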