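import Pool.Agent.Shared.BrunnMinkowski

/-!
An isodiametric inequality for norms of revolution, with the volume of the dual body.
-/

open MeasureTheory Set Pointwise Metric Filter Topology

noncomputable section

namespace Pool.Agent.Lib.MP_8115c2_gt

open Pool.Agent.Shared.EuclidSlice Pool.Agent.Shared.BrunnMinkowski

/-- The volume of the unit ball. -/
def om (n : ℕ) : ℝ := volume.real (closedBall (0 : E n) 1)

lemma om_pos (n : ℕ) : 0 < om n :=
  ENNReal.toReal_pos (measure_closedBall_pos _ _ one_pos).ne' measure_closedBall_lt_top.ne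

lemma vol_ball (n : ℕ) {r : ℝ} (hr : 0 ≤ r) : volume.real (closedBall (0 : E n) r) = r ^ n * om n := by
  rw [om, measureReal_def, Measure.addHaar_closedBall' _ _ hr, ENNReal.toReal_mul,
    ENNReal.toReal_ofReal (by positivity), finrank_euclideanSpace_fin, measureReal_def]

lemma exp_int {g : ℝ → ℝ} (hg : IntegrableOn g (Ioi 0)) :
    Integrable (fun x => g (Real.exp x) * Real.exp x) ∧
      ∫ x, g (Real.exp x) * Real.exp x = ∫ t in Ioi 0, g t := by
  have h1 : ∀ x ∈ (univ : Set ℝ), HasDerivWithinAt Real.exp (Real.exp x) univ x := fun x _ =>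
    (Real.hasDerivAt_exp x).hasDerivWithinAt
  have h2 := integrableOn_image_iff_integrableOn_abs_deriv_smul MeasurableSet.univ h1
    Real.exp_injective.injOn g
  have h3 := integral_image_eq_integral_abs_deriv_smul MeasurableSet.univ h1
    Real.exp_injective.injOn g
  simp only [image_univ, Real.range_exp, Real.abs_exp, smul_eq_mul, integrableOn_univ,
    Measure.restrict_univ, mul_comm (Real.exp _)] at h2 h3
  exact ⟨h2.1 hg, h3.symm⟩

/-- The multiplicative form of the Prekopa-Leindler inequality. -/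
lemma pl_mul {k l β : ℝ → ℝ} (hk : Measurable k) (hl : Measurable l) (hβ : Measurable β)
    (k0 : ∀ t, 0 ≤ k t) (l0 : ∀ t, 0 ≤ l t) (β0 : ∀ t, 0 ≤ β t) {M R : ℝ} (kM : ∀ t, k t ≤ M)
    (lM : ∀ t, l t ≤ M) (kR : ∀ t, R < t → k t = 0) (lR : ∀ t, R < t → l t = 0)
    (ki : IntegrableOn k (Ioi 0)) (li : IntegrableOn l (Ioi 0)) (βi : IntegrableOn β (Ioi 0))
    (H : ∀ t u, 0 < t → 0 < u → k t * l u ≤ β √(t * u) ^ 2) :
    (∫ t in Ioi 0, k t) * ∫ t in Ioi 0, l t ≤ (∫ t in Ioi 0, β t) ^ 2 := by
  have key : ∀ a, 0 < a → (∫ t in Ici a, k t) * ∫ t in Ici a, l t ≤ (∫ t in Ioi 0, β t) ^ 2 := by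
    intro a ha
    have hs : Ici a ⊆ Ioi (0 : ℝ) := fun _ h => ha.trans_le h
    have A : ∀ {k : ℝ → ℝ}, Measurable k → (∀ t, 0 ≤ k t) → (∀ t, k t ≤ M) →
        (∀ t, R < t → k t = 0) → IntegrableOn k (Ioi 0) →
        Measurable (fun x => (Ici a).indicator k (Real.exp x) * Real.exp x) ∧
        (∀ x, 0 ≤ (Ici a).indicator k (Real.exp x) * Real.exp x) ∧
        BddAbove (range fun x => (Ici a).indicator k (Real.exp x) * Real.exp x) ∧
        Integrable (fun x => (Ici a).indicator k (Real.exp x) * Real.exp x) ∧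
        Bornology.IsBounded {x | (Ici a).indicator k (Real.exp x) * Real.exp x ≠ 0} ∧
        (∀ x, (Ici a).indicator k x ≤ k x) ∧
        ∫ x, (Ici a).indicator k (Real.exp x) * Real.exp x = ∫ t in Ici a, k t := by
      intro k hk k0 kM kR ki
      have h1 := exp_int (ki.indicator (measurableSet_Ici (a := a)))
      have h2 : ∀ x, (Ici a).indicator k x ≤ k x := fun x => indicator_le_self' (fun t _ => k0 t) x
      have h3 : ∀ x, 0 ≤ (Ici a).indicator k x := fun x => indicator_nonneg (fun t _ => k0 t) x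
      refine ⟨((hk.indicator measurableSet_Ici).comp Real.measurable_exp).mul Real.measurable_exp,
        fun x => mul_nonneg (h3 _) (Real.exp_pos x).le, ⟨M * |R|, ?_⟩, h1.1,
        (isBounded_Icc (Real.log a) R).subset fun x hx => ?_, h2, ?_⟩
      · rintro _ ⟨x, rfl⟩
        rcases le_or_gt (Real.exp x) R with h | h
        · exact mul_le_mul ((h2 _).trans (kM _)) (h.trans (le_abs_self R)) (Real.exp_pos x).le
            ((k0 0).trans (kM 0))
        · have := h2 (Real.exp x)
          rw [kR _ h] at this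
          exact (mul_nonpos_of_nonpos_of_nonneg this (Real.exp_pos x).le).trans
            (mul_nonneg ((k0 0).trans (kM 0)) (abs_nonneg R))
      · have h4 := left_ne_zero_of_mul hx
        refine ⟨(Real.log_le_iff_le_exp ha).2 (mem_of_indicator_ne_zero h4), ?_⟩
        by_contra h5
        refine h4 (le_antisymm ((h2 _).trans (kR _ ?_).le) (h3 _))
        linarith [Real.add_one_le_exp x]
      · rw [h1.2, setIntegral_indicator measurableSet_Ici, inter_eq_right.2 hs]
    obtain ⟨a1, a2, a3, a4, a5, a6, a7⟩ := A hk k0 kM kR ki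
    obtain ⟨b1, b2, b3, b4, b5, b6, b7⟩ := A hl l0 lM lR li
    have c := exp_int βi
    have h := pl_one (h := fun x => β (Real.exp x) * Real.exp x) a1 b1
      ((hβ.comp Real.measurable_exp).mul Real.measurable_exp) a2 b2
      (fun x => mul_nonneg (β0 _) (Real.exp_pos x).le) a3 b3 a4 b4 c.1 a5 b5
      (l := 1 / 2) (by norm_num) (by norm_num) fun x y => by
        have e : Real.exp ((1 - 1 / 2) * x + 1 / 2 * y) = √(Real.exp x * Real.exp y) := by
          rw [← Real.exp_add, ← Real.exp_half]
          congr 1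
          ring
        rw [show (1 : ℝ) - 1 / 2 = 1 / 2 by norm_num, ← Real.mul_rpow (a2 x) (b2 y),
          ← Real.sqrt_eq_rpow]
        rw [show (1 : ℝ) - 1 / 2 = 1 / 2 by norm_num] at e
        rw [e]
        refine Real.sqrt_le_iff.2 ⟨mul_nonneg (β0 _) (Real.sqrt_nonneg _), ?_⟩
        rw [mul_pow, Real.sq_sqrt (by positivity), mul_mul_mul_comm]
        refine mul_le_mul_of_nonneg_right (le_trans (mul_le_mul (a6 _) (b6 _)
          (indicator_nonneg (fun t _ => l0 t) _) (k0 _))
          (H _ _ (Real.exp_pos x) (Real.exp_pos y))) (by positivity)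
    have p1 : 0 ≤ ∫ t in Ici a, k t := integral_nonneg k0
    have p2 : 0 ≤ ∫ t in Ici a, l t := integral_nonneg l0
    rw [a7, b7, c.2, show (1 : ℝ) - 1 / 2 = 1 / 2 by norm_num, ← Real.mul_rpow p1 p2,
      ← Real.sqrt_eq_rpow] at h
    exact (Real.sqrt_le_iff.1 h).2
  have hU : ⋃ n : ℕ, Ici (1 / ((n : ℝ) + 1)) = Ioi 0 := by
    ext t
    simp only [mem_iUnion, mem_Ici, mem_Ioi]
    exact ⟨fun ⟨n, hn⟩ => lt_of_lt_of_le (by positivity) hn,
      fun h => (exists_nat_one_div_lt h).imp fun _ => le_of_lt⟩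
  have hm : Monotone fun n : ℕ => Ici (1 / ((n : ℝ) + 1)) := fun a b h =>
    Ici_subset_Ici.2 (Nat.one_div_le_one_div h)
  have t1 := tendsto_setIntegral_of_monotone (fun _ => measurableSet_Ici) hm (hU ▸ ki)
  have t2 := tendsto_setIntegral_of_monotone (fun _ => measurableSet_Ici) hm (hU ▸ li)
  rw [hU] at t1 t2
  exact le_of_tendsto' (t1.mul t2) fun n => key _ (by positivity)

lemma norm_cons_sq {n : ℕ} (t : ℝ) (x : E n) : ‖cons t x‖ ^ 2 = t ^ 2 + ‖x‖ ^ 2 := by
  rw [EuclideanSpace.real_norm_sq_eq, EuclideanSpace.real_norm_sq_eq, Fin.sum_univ_succ]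
  simp

/-- The volume of the slices of the unit ball. -/
def bt (m : ℕ) (u : ℝ) : ℝ := √(1 - u ^ 2) ^ m * om m

lemma slice_ball {m : ℕ} (hm : 0 < m) (u : ℝ) :
    volume.real (slice (closedBall (0 : E (m + 1)) 1) u) = bt m u := by
  have h : ∀ x : E m, x ∈ slice (closedBall (0 : E (m + 1)) 1) u ↔ ‖x‖ ^ 2 ≤ 1 - u ^ 2 := fun x => by
    rw [mem_slice, mem_closedBall_zero_iff, ← sq_le_one_iff₀ (norm_nonneg _), norm_cons_sq,
      le_sub_iff_add_le']
  rcases le_or_gt 0 (1 - u ^ 2) with h0 | h0
  · rw [bt, ← vol_ball _ (Real.sqrt_nonneg _)]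
    congr 1
    ext x
    rw [h, mem_closedBall_zero_iff, Real.le_sqrt (norm_nonneg _) h0]
  · rw [bt, Real.sqrt_eq_zero_of_nonpos h0.le, zero_pow hm.ne', zero_mul,
      eq_empty_of_forall_notMem (s := slice _ u) fun x hx => by nlinarith [(h x).1 hx, sq_nonneg ‖x‖],
      measureReal_empty]

lemma half {f : ℝ → ℝ} (h : ∀ t, f |t| = f t) : ∫ t, f t = 2 * ∫ t in Ioi 0, f t := by
  rw [← integral_comp_abs]
  simp only [h]

lemma bt_int {m : ℕ} (hm : 0 < m) : Integrable (bt m) := by
  simpa only [slice_ball hm] using integrable_real_slice (isCompact_closedBall (0 : E (m + 1)) 1)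

lemma om_succ {m : ℕ} (hm : 0 < m) : om (m + 1) = 2 * ∫ t in Ioi 0, bt m t := by
  rw [om, real_eq_integral_slice (isCompact_closedBall _ _), ← half fun t => by rw [bt, bt, sq_abs]]
  simp only [slice_ball hm]

variable {ι : Type} [Fintype ι] {m : ℕ} {p c w : ι → ℝ}

/-- The unit ball of the norm given by a finite family of cylinders. -/
def KK (m : ℕ) (p c : ι → ℝ) : Set (E (m + 1)) :=
  {z | ∀ j, 0 < c j → p j * ‖tail z‖ + c j * |z 0| ≤ 1}

omit [Fintype ι] in
lemma KK_compact (hp : ∀ j, 0 < p j) {i : ι} (hi : 0 < c i) : IsCompact (KK m p c) := by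
  refine isCompact_of_isClosed_isBounded ?_ ?_
  · simp only [KK, ofPred_forall]
    refine isClosed_iInter fun j => isClosed_iInter fun _ => isClosed_le ?_ continuous_const
    have := continuous_tail (n := m)
    fun_prop
  · refine (isBounded_closedBall (x := 0) (r := (p i)⁻¹ + (c i)⁻¹)).subset fun z hz => ?_
    have h1 := hz i hi
    have h2 := norm_cons_sq (z 0) (tail z)
    have h3 : ‖tail z‖ ≤ (p i)⁻¹ := by
      rw [← one_div, le_div_iff₀' (hp i)]
      nlinarith [abs_nonneg (z 0)]
    have h4 : |z 0| ≤ (c i)⁻¹ := by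
      rw [← one_div, le_div_iff₀' hi]
      nlinarith [norm_nonneg (tail z), hp i]
    rw [cons_tail, ← sq_abs (z 0)] at h2
    rw [mem_closedBall_zero_iff]
    refine le_trans (abs_le_of_sq_le_sq' ?_ (by positivity)).2 (add_le_add h3 h4)
    nlinarith [abs_nonneg (z 0), norm_nonneg (tail z)]

/-- The Blaschke-Santalo inequality for bodies of revolution. -/
lemma santalo (hm : 0 < m) (hp : ∀ j, 0 < p j) (hw : ∀ j, 0 ≤ w j)
    (hS : ∀ S : Finset ι, S.Nonempty → ∃ i ∈ S, ∑ j ∈ S, w j ≤ p i ^ m) {i : ι} (hi : 0 < c i) :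
    volume.real (KK m p c) * (2 * om m * ∑ j, max (c j) 0 * w j) ≤ om (m + 1) ^ 2 := by
  classical
  have hK := KK_compact (m := m) hp hi
  have ho := om_pos m
  let l : ℝ → ℝ := fun u => ∑ j, (Iic (c j)).indicator (fun _ => w j * om m) u
  have hli : ∀ j, IntegrableOn ((Iic (c j)).indicator fun _ => w j * om m) (Ioi 0) := fun j => by
    rw [IntegrableOn, integrable_indicator_iff measurableSet_Iic, IntegrableOn,
      Measure.restrict_restrict measurableSet_Iic, Iic_inter_Ioi]
    exact integrableOn_const measure_Ioc_lt_top.ne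
  have hl : ∫ u in Ioi 0, l u = om m * ∑ j, max (c j) 0 * w j := by
    rw [integral_finsetSum _ fun j _ => hli j, Finset.mul_sum]
    refine Finset.sum_congr rfl fun j _ => ?_
    rw [setIntegral_indicator measurableSet_Iic, Ioi_inter_Iic, setIntegral_const,
      Real.volume_real_Ioc, sub_zero, smul_eq_mul]
    ring
  obtain ⟨R, hR⟩ := hK.isBounded.subset_closedBall 0
  have h := pl_mul (k := fun t => volume.real (slice (KK m p c) t)) (l := l) (β := bt m)
    (measurable_real_slice hK)
    (Finset.measurable_sum _ fun j _ => measurable_const.indicator measurableSet_Iic)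
    (by unfold bt; fun_prop) (fun _ => measureReal_nonneg)
    (fun u => Finset.sum_nonneg fun j _ => indicator_nonneg (fun _ _ => mul_nonneg (hw j) ho.le) u)
    (fun t => by unfold bt; positivity)
    (M := max (volume.real (tail '' KK m p c)) (∑ j, w j * om m)) (R := R + ∑ j, |c j|)
    (fun t => (real_slice_le hK t).trans (le_max_left _ _))
    (fun u => (Finset.sum_le_sum fun j _ => indicator_le' (fun _ _ => le_rfl)
      (fun _ _ => mul_nonneg (hw j) ho.le) u).trans (le_max_right _ _))
    (fun t ht => by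
      rw [eq_empty_of_forall_notMem (s := slice _ t) fun x hx => ?_, measureReal_empty]
      have h1 := mem_closedBall_zero_iff.1 (hR hx)
      have h2 := norm_cons_sq t x
      have h3 : 0 ≤ ∑ j, |c j| := Finset.sum_nonneg fun _ _ => abs_nonneg _
      nlinarith [norm_nonneg (cons t x), sq_nonneg ‖x‖])
    (fun u hu => Finset.sum_eq_zero fun j _ => indicator_of_notMem (fun h => by
      have h1 : 0 ≤ R := by
        simpa using hR (show (0 : E (m + 1)) ∈ KK m p c from fun j _ => by
          simp [show tail (0 : E (m + 1)) = 0 from rfl])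
      have h2 := Finset.single_le_sum (f := fun j => |c j|) (fun _ _ => abs_nonneg _)
        (Finset.mem_univ j)
      linarith [mem_Iic.1 h, le_abs_self (c j)]) _)
    (integrable_real_slice hK).integrableOn (integrable_finsetSum _ fun j _ => hli j)
    (bt_int hm).integrableOn fun t u ht hu => by
      have e : l u = (∑ j with u ≤ c j, w j) * om m := by
        simp only [l, Finset.sum_mul, Finset.sum_filter, indicator_apply, mem_Iic, ite_mul, zero_mul]
      rcases (Finset.univ.filter fun j => u ≤ c j).eq_empty_or_nonempty with h0 | h0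
      · rw [e, h0, Finset.sum_empty, zero_mul, mul_zero]
        positivity
      obtain ⟨a, ha, hs⟩ := hS _ h0
      have ha' : u ≤ c a := (Finset.mem_filter.1 ha).2
      have h1 : ∀ x ∈ slice (KK m p c) t, p a * ‖x‖ ≤ 1 - t * u := fun x hx => by
        have := hx a (hu.trans_le ha')
        rw [tail_cons, cons_zero, abs_of_pos ht] at this
        nlinarith
      rcases lt_or_ge (1 - t * u) 0 with h2 | h2
      · rw [eq_empty_of_forall_notMem (s := slice _ t) fun x hx => by
          nlinarith [h1 x hx, mul_nonneg (hp a).le (norm_nonneg x)], measureReal_empty, zero_mul]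
        positivity
      have hpa := hp a
      have h3 : volume.real (slice (KK m p c) t) ≤ ((1 - t * u) / p a) ^ m * om m := by
        rw [← vol_ball _ (by positivity)]
        exact measureReal_mono (fun x hx => mem_closedBall_zero_iff.2
          ((le_div_iff₀' hpa).2 (h1 x hx))) measure_closedBall_lt_top.ne
      refine (mul_le_mul h3 (e.le.trans (mul_le_mul_of_nonneg_right hs ho.le))
        (e ▸ mul_nonneg (Finset.sum_nonneg fun j _ => hw j) ho.le) (by positivity)).trans_eq ?_
      rw [bt, Real.sq_sqrt (by positivity), mul_pow, pow_right_comm, Real.sq_sqrt h2, div_pow]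
      field_simp
  rw [real_eq_integral_slice hK, half fun t => by simp only [slice, KK, mem_ofPred_eq, tail_cons,
    cons_zero, abs_abs], om_succ hm]
  rw [hl] at h
  nlinarith

/-- The isodiametric inequality. -/
lemma isodiam {n : ℕ} {K A : Set (E n)} (hK : IsCompact K) {δ : ℝ} (hδ : 0 ≤ δ)
    (h : ∀ a ∈ A, ∀ b ∈ A, a - b ∈ δ • K) :
    volume A ≤ ENNReal.ofReal ((δ / 2) ^ n * volume.real K) := by
  rcases A.eq_empty_or_nonempty with rfl | ⟨a₀, ha₀⟩
  · simp
  have hc : IsCompact (closure A) := by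
    refine ((hK.smul δ).vadd a₀).closure_of_subset fun a ha => ?_
    exact ⟨a - a₀, h a ha a₀ ha₀, by simp⟩
  have h1 : ∀ a ∈ closure A, ∀ b ∈ closure A, a - b ∈ δ • K := fun a ha b hb =>
    map_mem_closure₂ (f := fun a b : E n => a - b) (by fun_prop) ha hb h |>
      (hK.smul δ).isClosed.closure_subset
  have h2 := le_volume_of_le (l := 1 / 2) (by norm_num) (by norm_num) hc hc.neg
    ((hK.smul δ).smul (1 / 2 : ℝ)) (T := volume.real (closure A)) (fun a ha b hb =>
      ⟨a - -b, h1 a ha _ hb, by simp only; module⟩) le_rfl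
    (by rw [measureReal_def, measureReal_def, Measure.measure_neg])
  refine (measure_mono subset_closure).trans ?_
  rw [← ofReal_measureReal hc.measure_lt_top.ne]
  refine ENNReal.ofReal_le_ofReal (h2.trans_eq ?_)
  rw [smul_smul, measureReal_def, Measure.addHaar_smul, ENNReal.toReal_mul,
    ENNReal.toReal_ofReal (abs_nonneg _), finrank_euclideanSpace_fin, abs_of_nonneg (by positivity),
    measureReal_def]
  ring

/-- The combined inequality. -/
lemma iso_dual (hm : 0 < m) (hp : ∀ j, 0 < p j) (hw : ∀ j, 0 ≤ w j)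
    (hS : ∀ S : Finset ι, S.Nonempty → ∃ i ∈ S, ∑ j ∈ S, w j ≤ p i ^ m) {i : ι} (hi : 0 < c i)
    {A : Set (E (m + 1))} {δ : ℝ} (hδ : 0 ≤ δ) (h : ∀ a ∈ A, ∀ b ∈ A, ∀ j, 0 < c j →
      p j * ‖tail a - tail b‖ + c j * |a 0 - b 0| ≤ δ) :
    ENNReal.ofReal (2 * om m * ∑ j, max (c j) 0 * w j) * volume A ≤
      ENNReal.ofReal (om (m + 1) ^ 2 / 2 ^ (m + 1)) * ENNReal.ofReal δ ^ (m + 1) := by
  have h0 : 0 ≤ 2 * om m * ∑ j, max (c j) 0 * w j :=
    mul_nonneg (by have := om_pos m; positivity)
      (Finset.sum_nonneg fun j _ => mul_nonneg (le_max_right _ _) (hw j))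
  have h1 := isodiam (A := A) (KK_compact (m := m) hp hi) hδ fun a ha b hb => by
    rcases hδ.eq_or_lt with rfl | hδ'
    · have h2 := h a ha b hb i hi
      have h3 := mul_nonneg (hp i).le (norm_nonneg (tail a - tail b))
      have h4 := mul_nonneg hi.le (abs_nonneg (a 0 - b 0))
      have h5 : tail a = tail b := sub_eq_zero.1 (norm_eq_zero.1
        ((mul_eq_zero.1 (le_antisymm (by linarith) h3)).resolve_left (hp i).ne'))
      have h6 : a 0 = b 0 := sub_eq_zero.1 (abs_eq_zero.1
        ((mul_eq_zero.1 (le_antisymm (by linarith) h4)).resolve_left hi.ne'))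
      refine ⟨0, fun j _ => by simp [show tail (0 : E (m + 1)) = 0 from rfl], ?_⟩
      rw [← cons_tail a, h5, h6, cons_tail]
      simp
    · refine (mem_smul_set_iff_inv_smul_mem₀ hδ'.ne' _ _).2 fun j hj => ?_
      have e : tail (δ⁻¹ • (a - b)) = δ⁻¹ • (tail a - tail b) := by
        ext k
        simp
      rw [e, norm_smul, PiLp.smul_apply, PiLp.sub_apply, smul_eq_mul, abs_mul, Real.norm_eq_abs,
        abs_of_pos (inv_pos.2 hδ'), mul_left_comm, mul_left_comm (c j), ← mul_add,
        inv_mul_le_one₀ hδ']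
      exact h a ha b hb j hj
  refine (mul_le_mul_right h1 _).trans ?_
  rw [← ENNReal.ofReal_mul h0, ← ENNReal.ofReal_pow hδ, ← ENNReal.ofReal_mul (by positivity)]
  refine ENNReal.ofReal_le_ofReal ?_
  have h2 := mul_le_mul_of_nonneg_left (santalo hm hp hw hS hi) (show 0 ≤ (δ / 2) ^ (m + 1) by positivity)
  refine le_trans (le_of_eq (by ring)) (h2.trans_eq ?_)
  rw [div_pow]
  ring

end Pool.Agent.Lib.MP_8115c2_gt
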