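import Pool.Agent.Lib.MP_8115c2_gt.Meas

/-!
The lower bound for the Hausdorff measure of a rotation invariant metric on a ball.
-/

open MeasureTheory Set Pointwise Metric Filter Topology InnerProductGeometry
open scoped RealInnerProductSpace ENNReal

noncomputable section

namespace Pool.Agent.Lib.MP_8115c2_gt

open Pool.Agent.Shared.EuclidSlice Real

variable {m : ℕ}

/-- The primitive used in the comparison with Riemann sums. -/
def prim (m : ℕ) (φ : ℝ) : ℝ := (∫ t in (0 : ℝ)..sin φ, √(1 - t ^ 2) ^ (m + 1)) / (m + 2) -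
  (sin φ - cos φ * φ) * cos φ ^ (m + 1) - φ * cos φ ^ (m + 2) / (m + 2)

lemma prim_step {a b : ℝ} (ha : 0 ≤ a) (h : a ≤ b) (hb : b ≤ π / 2) : prim m b - prim m a ≤
    (sin a - cos a * a + 3 * (b - a)) * (cos a ^ (m + 1) - cos b ^ (m + 1)) := by
  set K := sin a - cos a * a + 3 * (b - a) with hK
  have hd : ∀ φ ∈ Icc a b, HasDerivAt (fun φ => prim m φ + K * cos φ ^ (m + 1))
      ((sin φ - cos φ * φ - K) * ((m + 1) * cos φ ^ m * sin φ)) φ := fun φ hφ => by
    have h0 : 0 ≤ cos φ := cos_nonneg_of_mem_Icc ⟨by linarith [hφ.1, pi_pos], hφ.2.trans hb⟩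
    have h1 := ((show Continuous fun t : ℝ => √(1 - t ^ 2) ^ (m + 1) by
      fun_prop).integral_hasStrictDerivAt 0 (sin φ)).hasDerivAt.comp φ (hasDerivAt_sin φ)
    have h2 := (((h1.div_const ((m : ℝ) + 2)).sub (((hasDerivAt_sin φ).sub
      ((hasDerivAt_cos φ).mul (hasDerivAt_id φ))).mul ((hasDerivAt_cos φ).pow (m + 1)))).sub
      (((hasDerivAt_id φ).mul ((hasDerivAt_cos φ).pow (m + 2))).div_const ((m : ℝ) + 2))).add
      (((hasDerivAt_cos φ).pow (m + 1)).const_mul K)
    refine h2.congr_deriv ?_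
    simp only [← cos_sq', sqrt_sq h0, Pi.pow_apply, Pi.sub_apply, Pi.mul_apply, id,
      Nat.add_sub_cancel, Nat.add_succ_sub_one]
    push_cast
    field_simp
    ring
  have h3 := antitoneOn_of_deriv_nonpos (convex_Icc a b)
    (fun φ hφ => (hd φ hφ).continuousAt.continuousWithinAt)
    (fun φ hφ => (hd φ (interior_subset hφ)).differentiableAt.differentiableWithinAt)
    (fun φ hφ => by
      have hφ := interior_subset hφ
      have h0 : 0 ≤ cos φ := cos_nonneg_of_mem_Icc ⟨by linarith [hφ.1, pi_pos], hφ.2.trans hb⟩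
      have h1 : 0 ≤ sin φ := sin_nonneg_of_nonneg_of_le_pi (ha.trans hφ.1)
        (by linarith [hφ.2, pi_pos])
      rw [(hd φ hφ).deriv]
      refine mul_nonpos_of_nonpos_of_nonneg ?_ (by positivity)
      have h2 := (le_abs_self _).trans (abs_sin_sub_sin_le φ a)
      have h3 := (le_abs_self _).trans (abs_cos_sub_cos_le a φ)
      rw [abs_of_nonneg (sub_nonneg.2 hφ.1)] at h2
      rw [abs_sub_comm, abs_of_nonneg (sub_nonneg.2 hφ.1)] at h3
      nlinarith [hφ.1, hφ.2, pi_le_four, mul_nonneg h0 (sub_nonneg.2 hφ.1),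
        mul_le_mul_of_nonneg_left h3 ha]) (left_mem_Icc.2 h) (right_mem_Icc.2 h) h
  simp only at h3
  linarith

lemma om_prim : om (m + 2) = 2 * om (m + 1) * (m + 2) * (prim m (π / 2) - prim m 0) := by
  have h1 : ∫ t in Ioi 0, bt (m + 1) t = ∫ t in (0 : ℝ)..1, bt (m + 1) t := by
    rw [intervalIntegral.integral_of_le zero_le_one]
    refine setIntegral_eq_of_subset_of_forall_sdiff_eq_zero measurableSet_Ioi Ioc_subset_Ioi_self
      fun t ht => ?_
    have : 1 < t := not_le.1 fun h => ht.2 ⟨ht.1, h⟩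
    rw [bt, sqrt_eq_zero_of_nonpos (by nlinarith), zero_pow m.succ_ne_zero, zero_mul]
  rw [om_succ m.succ_pos, h1]
  simp only [bt, prim, intervalIntegral.integral_mul_const, sin_pi_div_two, cos_pi_div_two,
    sin_zero, intervalIntegral.integral_same]
  field_simp
  ring

lemma riemann {ε : ℝ} (hε : 0 < ε) : ∃ (J : ℕ) (φ w : Fin J → ℝ), (∀ j, 0 ≤ φ j) ∧
    (∀ j, 0 < cos (φ j)) ∧ (∀ j, 0 ≤ w j) ∧
    (∀ S : Finset (Fin J), S.Nonempty → ∃ i ∈ S, ∑ j ∈ S, w j ≤ cos (φ i) ^ (m + 1)) ∧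
    ∑ j, w j = 1 ∧ om (m + 2) ≤ 2 * om (m + 1) * (m + 2) *
      (∑ j, (sin (φ j) - cos (φ j) * φ j) * w j + ε) := by
  obtain ⟨J, hJ⟩ := exists_nat_gt (3 * (π / 2) / ε)
  have J0 : (0 : ℝ) < J := lt_trans (by positivity) hJ
  let φ : ℕ → ℝ := fun j => j * (π / 2 / J)
  have h0 : ∀ j, 0 ≤ φ j := fun j => by positivity
  have h1 : ∀ j, φ (j + 1) - φ j = π / 2 / J := fun j => by simp only [φ]; push_cast; ring
  have h2 : φ J = π / 2 := mul_div_cancel₀ _ J0.ne'
  have h3 : StrictMono φ := strictMono_nat_of_lt_succ fun j => sub_pos.1 (h1 j ▸ by positivity)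
  let P : ℕ → ℝ := fun j => cos (φ j) ^ (m + 1)
  have h4 : ∀ j < J, 0 ≤ P j - P (j + 1) := fun j hj => by
    have := h2 ▸ h3.monotone (Nat.succ_le_of_lt hj)
    exact sub_nonneg.2 (pow_le_pow_left₀ (cos_nonneg_of_mem_Icc ⟨by linarith [h0 (j + 1), pi_pos],
      this⟩) (cos_le_cos_of_nonneg_of_le_pi (h0 j) (by linarith [pi_pos])
      (h3 j.lt_succ_self).le) _)
  have h5 : ∀ i ≤ J, ∑ j ∈ Finset.Ico i J, (P j - P (j + 1)) = P i := fun i hi => by
    rw [Finset.sum_Ico_eq_sub _ hi, Finset.sum_range_sub', Finset.sum_range_sub']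
    simp [P, h2]
  have h6 : ∑ j : Fin J, (P j - P (j + 1)) = 1 := by
    rw [Fin.sum_univ_eq_sum_range (fun j => P j - P (j + 1)), Finset.range_eq_Ico, h5 0 J.zero_le]
    simp [P, φ]
  refine ⟨J, fun j => φ j, fun j => P j - P (j + 1), fun j => h0 j, fun j =>
    cos_pos_of_mem_Ioo ⟨by linarith [h0 j, pi_pos], h2 ▸ h3 j.2⟩, fun j => h4 j j.2,
    fun S hS => ⟨S.min' hS, S.min'_mem hS, ?_⟩, h6, ?_⟩
  · refine le_trans ?_ (h5 _ (S.min' hS).2.le).le
    refine (Finset.sum_map S Fin.valEmbedding fun j => P j - P (j + 1)).ge.trans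
      (Finset.sum_le_sum_of_subset_of_nonneg (fun j hj => ?_) fun j hj _ =>
        h4 j (Finset.mem_Ico.1 hj).2)
    obtain ⟨i, hi, rfl⟩ := Finset.mem_map.1 hj
    exact Finset.mem_Ico.2 ⟨S.min'_le i hi, i.2⟩
  rw [om_prim]
  refine mul_le_mul_of_nonneg_left ?_ (by have := om_pos (m + 1); positivity)
  have h7 := Finset.sum_range_sub (fun j => prim m (φ j)) J
  rw [h2, show φ 0 = 0 by simp [φ], ← Fin.sum_univ_eq_sum_range
    (fun j => prim m (φ (j + 1)) - prim m (φ j))] at h7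
  rw [← h7]
  refine (Finset.sum_le_sum fun (j : Fin J) _ => prim_step (h0 j) (h3 j.1.lt_succ_self).le
    (h2 ▸ h3.monotone (Nat.succ_le_of_lt j.2))).trans ?_
  simp only [h1, add_mul, Finset.sum_add_distrib, ← Finset.mul_sum]
  rw [h6, mul_one, ← mul_div_assoc, add_le_add_iff_left, div_le_comm₀ J0 hε]
  exact hJ.le

lemma slope_aux {b : ℝ → ℝ} {τ σ l : ℝ} (hb : DifferentiableAt ℝ b τ) (l1 : l < 1) :
    ∃ c : ℚ, l * (Icc 0 σ).indicator (fun τ => |deriv b τ|) τ ≤ max (c : ℝ) 0 ∧ (0 < (c : ℝ) →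
      τ ∈ Icc 0 σ ∧ ∀ᶠ h in 𝓝 (0 : ℝ), c * |h| ≤ |b (τ + h) - b τ|) := by
  by_cases h : τ ∈ Icc 0 σ ∧ deriv b τ ≠ 0
  · obtain ⟨c, h1, h2⟩ := exists_rat_btwn (mul_lt_of_lt_one_left (abs_pos.2 h.2) l1)
    refine ⟨c, by rw [indicator_of_mem h.1]; exact h1.le.trans (le_max_left _ _), fun _ => ⟨h.1, ?_⟩⟩
    filter_upwards [(hasDerivAt_iff_isLittleO_nhds_zero.1 hb.hasDerivAt).bound (sub_pos.2 h2)]
      with t ht
    have := abs_sub_abs_le_abs_sub (t * deriv b τ) (b (τ + t) - b τ)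
    rw [abs_sub_comm (t * _), abs_mul] at this
    simp only [norm_eq_abs, smul_eq_mul] at ht
    linarith
  · refine ⟨0, ?_, by simp⟩
    by_cases h' : τ ∈ Icc 0 σ
    · simp [h', not_not.1 (not_and.1 h h')]
    · simp [h']

variable {X : Type} [MetricSpace X] [MeasurableSpace X] [BorelSpace X]

lemma lower_aux (d : Data X (E (m + 2))) {ε l : ℝ} (hε : 0 < ε) (l0 : 0 < l) (l1 : l < 1) :
    ENNReal.ofReal (l ^ (m + 2) * (om (m + 2) - 4 * om (m + 1) * (m + 2) * ε) * om (m + 2)) ≤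
      ENNReal.ofReal (om (m + 2) ^ 2 / 2 ^ (m + 2)) * μH[(m + 2 : ℕ)] (univ : Set X) := by
  obtain ⟨J, φ, w, φ0, p0, w0, hS, w1, hR⟩ := riemann (m := m) hε
  choose σ hσ η' hη' b hb h1 h2 using fun j => d.momentum (p0 j).le (φ0 j) hε
  obtain ⟨η, h3, hη⟩ := ((eventually_all.2 fun j => mem_nhdsWithin_of_mem_nhds
    (Iic_mem_nhds (hη' j))).and (self_mem_nhdsWithin (s := Ioi (0 : ℝ)))).exists
  let u : Fin J → ℝ → ℝ := fun j => (Icc 0 (σ j)).indicator fun τ => |deriv (b j) τ|
  have o1 := om_pos (m + 1)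
  have o2 := om_pos (m + 2)
  have hu : ∀ j, Integrable (u j) := fun j => (integrable_indicator_iff measurableSet_Icc).2
    (Measure.integrableOn_of_bounded (M := 1) measure_Icc_lt_top.ne
      (measurable_deriv _).abs.aestronglyMeasurable (ae_of_all _ fun τ => by
        simpa using norm_deriv_le_of_lipschitz (x₀ := τ) (hb j)))
  have h4 := layer (ι := (Fin J → ℚ) × ℕ) ((ENNReal.ofReal (om (m + 2) ^ 2 / 2 ^ (m + 2)) •
      μH[(m + 2 : ℕ)]).map d.S)
    (f := fun τ => ENNReal.ofReal (2 * om (m + 1) * ∑ j, l * u j τ * (l ^ (m + 1) * w j)) *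
      ((m + 1 + 1 : ℕ) * ENNReal.ofReal (om (m + 2))))
    (by
      have : ∀ j, Measurable (u j) := fun j => (measurable_deriv _).abs.indicator measurableSet_Icc
      fun_prop)
    (F := fun z => ⋂ j, ⋂ _ : 0 < (z.1 j : ℝ), Icc 0 (σ j) ∩ ⋂ h : ℝ, ⋂ _ : |h| ≤ 1 / (z.2 + 1),
      {τ | z.1 j * |h| ≤ |b j (τ + h) - b j τ|})
    (fun z => IsClosed.measurableSet (isClosed_iInter fun j => isClosed_iInter fun _ =>
      isClosed_Icc.inter (isClosed_iInter fun h => isClosed_iInter fun _ => by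
        have := (hb j).continuous
        exact isClosed_le continuous_const (by fun_prop))))
    (γ := fun z => ENNReal.ofReal (2 * om (m + 1) * ∑ j, max (z.1 j : ℝ) 0 * (l ^ (m + 1) * w j)) *
      ((m + 1 + 1 : ℕ) * ENNReal.ofReal (om (m + 2))))
    (fun z G hG hG' => by
      simp only [subset_iInter_iff, subset_inter_iff] at hG'
      by_cases h : ∃ i, 0 < (z.1 i : ℝ)
      · obtain ⟨i, hi⟩ := h
        rw [Measure.map_apply d.cont_S.measurable hG, Measure.smul_apply, smul_eq_mul]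
        refine shell d (p := fun j => cos (φ j)) (c := fun j => z.1 j) m.succ_pos p0 w0 hS hi l0 l1
          hη (Nat.one_div_pos_of_nat (n := z.2)) hG (fun τ hτ => ⟨((hG' i hi).1 hτ).1,
            ((hG' i hi).1 hτ).2.trans_lt (hσ i)⟩) fun x y hx hy ha hd j hj => ?_
        have h5 := (hG' j hj).2 _ ((d.S_le x y).trans hd) hy
        rw [mem_ofPred_eq, add_sub_cancel] at h5
        linarith [h2 j x y ((hG' j hj).1 hx).2 ((hG' j hj).1 hy).2 (ha.trans (h3 j))]
      · simp [fun j => max_eq_right (not_lt.1 (not_exists.1 h j))])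
    (by
      filter_upwards [ae_all_iff.2 fun j => (hb j).ae_differentiableAt_real] with τ hτ
      choose c c1 c2 using fun j => slope_aux (σ := σ j) (hτ j) l1
      obtain ⟨δ, hδ, h5⟩ := Metric.eventually_nhds_iff.1 (eventually_all.2 fun j =>
        eventually_imp_distrib_left.2 fun h => (c2 j h).2)
      obtain ⟨k, hk⟩ := exists_nat_one_div_lt hδ
      refine ⟨(c, k), mem_iInter₂.2 fun j hj => ⟨(c2 j hj).1, mem_iInter₂.2 fun h hh =>
        h5 (by simpa using hh.trans_lt hk) j hj⟩, mul_le_mul_left (ENNReal.ofReal_le_ofReal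
          (mul_le_mul_of_nonneg_left (Finset.sum_le_sum fun j _ => mul_le_mul_of_nonneg_right (c1 j)
            (mul_nonneg (pow_pos l0 _).le (w0 j))) (by positivity))) _⟩)
  rw [Measure.map_apply d.cont_S.measurable MeasurableSet.univ, Measure.smul_apply, smul_eq_mul,
    preimage_univ, lintegral_mul_const' _ _ (ENNReal.mul_ne_top (ENNReal.natCast_ne_top _)
      ENNReal.ofReal_ne_top), ← ofReal_integral_eq_lintegral_ofReal ((integrable_finsetSum _
      fun j _ => ((hu j).const_mul _).mul_const _).const_mul _) (ae_of_all _ fun τ => mul_nonneg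
      (by positivity) (Finset.sum_nonneg fun j _ => mul_nonneg (mul_nonneg l0.le
        (indicator_nonneg (fun _ _ => abs_nonneg _) _)) (mul_nonneg (pow_pos l0 _).le (w0 j)))),
    integral_const_mul, integral_finsetSum _ fun j _ => ((hu j).const_mul _).mul_const _,
    ← ENNReal.ofReal_natCast, ← ENNReal.ofReal_mul (by positivity),
    ← ENNReal.ofReal_mul' (by positivity)] at h4
  refine le_trans (ENNReal.ofReal_le_ofReal ?_) h4
  have h5 : ∑ j, l * (sin (φ j) - cos (φ j) * φ j - ε) * (l ^ (m + 1) * w j) ≤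
      ∑ j, ∫ τ, l * u j τ * (l ^ (m + 1) * w j) := Finset.sum_le_sum fun j _ => by
    rw [integral_mul_const, integral_const_mul, integral_indicator measurableSet_Icc]
    exact mul_le_mul_of_nonneg_right (mul_le_mul_of_nonneg_left (h1 j) l0.le)
      (mul_nonneg (pow_pos l0 _).le (w0 j))
  have h6 : ∑ j, l * (sin (φ j) - cos (φ j) * φ j - ε) * (l ^ (m + 1) * w j) =
      l ^ (m + 2) * (∑ j, (sin (φ j) - cos (φ j) * φ j) * w j - ε * ∑ j, w j) := by
    rw [Finset.mul_sum, ← Finset.sum_sub_distrib, Finset.mul_sum]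
    exact Finset.sum_congr rfl fun j _ => by ring
  rw [h6, w1] at h5
  refine le_trans ?_ (mul_le_mul_of_nonneg_right (mul_le_mul_of_nonneg_left h5 (by positivity))
    (by positivity))
  have h7 := mul_le_mul_of_nonneg_left hR (show 0 ≤ l ^ (m + 2) * om (m + 2) by positivity)
  push_cast
  nlinarith

theorem lower (d : Data X (E (m + 2))) : 2 ^ (m + 2) ≤ μH[(m + 2 : ℕ)] (univ : Set X) := by
  have o2 := om_pos (m + 2)
  have h1 : Tendsto (fun ε : ℝ => ENNReal.ofReal ((1 - ε) ^ (m + 2) *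
      (om (m + 2) - 4 * om (m + 1) * (m + 2) * ε) * om (m + 2))) (𝓝[>] 0) (𝓝 _) :=
    (Continuous.tendsto (ENNReal.continuous_ofReal.comp (by fun_prop)) 0).mono_left
      nhdsWithin_le_nhds
  have h2 := le_of_tendsto h1 (mem_of_superset (Ioo_mem_nhdsGT zero_lt_one) fun ε hε =>
    lower_aux d hε.1 (sub_pos.2 hε.2) (sub_lt_self 1 hε.1))
  refine (ENNReal.mul_le_mul_iff_right (ENNReal.ofReal_pos.2 (by positivity)).ne'
    ENNReal.ofReal_ne_top).1 (le_trans (le_of_eq ?_) h2)
  rw [← ENNReal.ofReal_ofNat, ← ENNReal.ofReal_pow zero_le_two,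
    ← ENNReal.ofReal_mul (by positivity), Function.comp_apply]
  congr 1
  field_simp
  ring

/-- The normalisation of the Hausdorff measure. -/
lemma ball_le (n : ℕ) : μH[n] (ball (0 : E n) 1) ≤ 2 ^ n := by
  choose t r tc ts hr h0 hd using fun k : ℕ => Besicovitch.exists_disjoint_closedBall_covering_ae
    (volume : Measure (E n)) (fun _ => univ) (ball 0 1)
    (fun x _ δ hδ => by simpa using hδ) (fun x => min (1 / (k + 1)) (1 - ‖x‖))
    fun x hx => lt_min Nat.one_div_pos_of_nat (sub_pos.2 (mem_ball_zero_iff.1 hx))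
  have hc : ∀ k, Countable (t k) := tc
  have h1 : ∀ k (x : t k), ediam (closedBall x.1 (r k x)) ≤ ENNReal.ofReal (2 * r k x) :=
    fun k x => ediam_le_of_forall_dist_le fun a ha b hb => by
      linarith [dist_triangle_right a b x.1, mem_closedBall.1 ha, mem_closedBall.1 hb]
  have h2 := Measure.hausdorffMeasure_le_liminf_tsum n (⋂ k, ⋃ x : t k, closedBall x.1 (r k x))
    (l := atTop) (fun k : ℕ => ENNReal.ofReal (2 * (1 / (k + 1))))
    (by simpa using ENNReal.tendsto_ofReal (tendsto_one_div_add_atTop_nhds_zero_nat.const_mul 2))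
    (fun k (x : t k) => closedBall x.1 (r k x))
    (.of_forall fun k x => (h1 k x).trans (ENNReal.ofReal_le_ofReal (by
      linarith [(hr k x x.2).2.2.trans_le (min_le_left _ _)])))
    (.of_forall fun k => iInter_subset _ k)
  have h3 : μH[n] (ball (0 : E n) 1 \ ⋂ k, ⋃ x : t k, closedBall x.1 (r k x)) = 0 := by
    refine Measure.absolutelyContinuous_isAddHaarMeasure μH[n] volume ?_
    rw [sdiff_iInter]
    exact measure_iUnion_null fun k => by rw [iUnion_coe_set]; exact h0 k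
  refine ((measure_le_inter_add_sdiff _ _ _).trans_eq (by rw [h3, add_zero])).trans
    (((measure_mono inter_subset_right).trans h2).trans (liminf_le_of_frequently_le'
    (.of_forall fun k => ?_)))
  have h4 : ∑' x : t k, volume (closedBall x.1 (r k x)) ≤ volume (ball (0 : E n) 1) :=
    (measure_biUnion (tc k) (hd k) fun _ _ => measurableSet_closedBall).ge.trans
      (measure_mono (iUnion₂_subset fun x hx => closedBall_subset_ball' (by
        have := (hr k x hx).2.2.trans_le (min_le_right _ _)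
        rw [dist_zero_right]
        linarith)))
  refine (ENNReal.mul_le_mul_iff_left (measure_ball_pos volume (0 : E n) one_pos).ne'
    measure_ball_lt_top.ne).1 (le_trans ?_ (mul_le_mul_right h4 (2 ^ n)))
  rw [← ENNReal.tsum_mul_left, ← ENNReal.tsum_mul_right]
  refine ENNReal.tsum_le_tsum fun x => ?_
  have h5 := (hr k x x.2).2.1
  rw [Measure.addHaar_closedBall _ _ h5.le, finrank_euclideanSpace_fin, ← mul_assoc,
    ENNReal.rpow_natCast, ENNReal.ofReal_pow h5.le, ← mul_pow]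
  refine mul_le_mul_left (pow_le_pow_left' ((h1 k x).trans_eq ?_) n) _
  rw [ENNReal.ofReal_mul zero_le_two, ENNReal.ofReal_ofNat]

theorem lowerE (d : Data X (E (m + 2))) :
    volume (closedBall (0 : E (m + 2)) 1) ≤ μHE[m + 2] (univ : Set X) := by
  rw [Measure.addHaar_closedBall_eq_addHaar_ball,
    ← EuclideanSpace.euclideanHausdorffMeasure_eq_volume,
    Measure.euclideanHausdorffMeasure_def, Measure.euclideanHausdorffMeasure_def,
    Measure.smul_apply, Measure.smul_apply, ENNReal.smul_def, ENNReal.smul_def]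
  exact mul_le_mul_right ((ball_le _).trans (lower d)) _

omit [MeasurableSpace X] [BorelSpace X] in
lemma cross [CompactSpace X] (hint : ∀ x y : X, edist x y = ⨅ γ : Path x y, eVariationOn γ univ)
    (f : X → ℝ) (hf : Continuous f) (x y : X) (c : ℝ) (hx : f x ≤ c) (hy : c ≤ f y) :
    ∃ z, f z = c ∧ dist x z + dist z y ≤ dist x y := by
  have key : ∀ ε > 0, ∃ z, f z = c ∧ dist x z + dist z y ≤ dist x y + ε := fun ε hε => by
    have h1 : edist x y < ENNReal.ofReal (dist x y + ε) := by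
      rw [edist_dist]
      exact (ENNReal.ofReal_lt_ofReal_iff (by positivity)).2 (by linarith)
    rw [hint] at h1
    obtain ⟨γ, hγ⟩ := iInf_lt_iff.1 h1
    obtain ⟨t, ht⟩ := intermediate_value_univ 0 1 (hf.comp γ.continuous)
      (show c ∈ _ from ⟨by simpa using hx, by simpa using hy⟩)
    refine ⟨γ t, ht, (ENNReal.ofReal_le_ofReal_iff (by positivity)).1 (le_trans ?_ hγ.le)⟩
    have h2 := eVariationOn.Icc_add_Icc γ (s := univ) t.2.1 t.2.2 (a := 0) (c := 1) (mem_univ t)
    rw [ENNReal.ofReal_add dist_nonneg dist_nonneg, ← edist_dist, ← edist_dist]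
    refine le_trans (add_le_add ?_ ?_) (h2.trans_le (eVariationOn.mono _ (subset_univ _)))
    · simpa using eVariationOn.edist_le γ (s := univ ∩ Icc 0 t) (x := 0) (y := t)
        ⟨trivial, le_rfl, t.2.1⟩ ⟨trivial, t.2.1, le_rfl⟩
    · simpa using eVariationOn.edist_le γ (s := univ ∩ Icc t 1) (x := t) (y := 1)
        ⟨trivial, le_rfl, t.2.2⟩ ⟨trivial, t.2.2, le_rfl⟩
  obtain ⟨z, hz, h⟩ := (isClosed_eq hf continuous_const).isCompact.exists_isMinOn
    ((key 1 one_pos).imp fun z h => h.1) (f := fun z => dist x z + dist z y) (by fun_prop)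
  refine ⟨z, hz, le_of_forall_pos_le_add fun ε hε => ?_⟩
  obtain ⟨z', h1, h2⟩ := key ε hε
  exact (h h1).trans h2

theorem main (e : X ≃ₜ closedBall (0 : E (m + 2)) 1)
    (hint : ∀ x y : X, edist x y = ⨅ γ : Path x y, eVariationOn γ univ)
    (hbd : ∀ x y : X, ‖(e x).1‖ = 1 → ‖(e y).1‖ = 1 → ‖(e x).1 - (e y).1‖ ≤ dist x y)
    (hinv : ∀ (g : E (m + 2) ≃ₗᵢ[ℝ] E (m + 2)) (x y x' y' : X), (e x').1 = g (e x).1 →
      (e y').1 = g (e y).1 → dist x' y' = dist x y) :
    volume (closedBall (0 : E (m + 2)) 1) ≤ μHE[m + 2] (univ : Set X) := by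
  have := e.symm.compactSpace
  have h0 : ∀ v : E (m + 2), 0 < max 1 ‖v‖ := fun v => one_pos.trans_le (le_max_left _ _)
  have h1 : ∀ v : E (m + 2), (max 1 ‖v‖)⁻¹ • v ∈ closedBall (0 : E (m + 2)) 1 := fun v => by
    rw [mem_closedBall_zero_iff, norm_smul, norm_of_nonneg (inv_pos.2 (h0 v)).le,
      inv_mul_le_one₀ (h0 v)]
    exact le_max_right _ _
  have h2 : ∀ v : E (m + 2), ‖v‖ ≤ 1 → (max 1 ‖v‖)⁻¹ • v = v := fun v hv => by
    rw [max_eq_left hv, inv_one, one_smul]
  have h3 := (EuclideanSpace.basisFun (Fin (m + 2)) ℝ).orthonormal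
  exact lowerE
    { ι := fun x => e x
      pt := fun v => e.symm ⟨_, h1 v⟩
      cι := by fun_prop
      cpt := e.symm.continuous.comp (Continuous.subtype_mk (Continuous.smul
        (Continuous.inv₀ (by fun_prop) fun v => (h0 v).ne') continuous_id) _)
      le := fun x => mem_closedBall_zero_iff.1 (e x).2
      pt_ι := fun x => e.symm_apply_eq.2 (Subtype.ext (h2 _ (mem_closedBall_zero_iff.1 (e x).2)))
      ι_pt := fun v hv => by rw [e.apply_symm_apply]; exact h2 v hv
      cross := cross hint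
      bd := hbd
      inv := hinv
      e0 := _
      e1 := _
      n0 := h3.1 0
      n1 := h3.1 1
      o01 := h3.2 Fin.zero_ne_one }

end Pool.Agent.Lib.MP_8115c2_gt
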